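import Pool.Agent.Helper245.G45.Inst
import Pool.Agent.Helper245.G45.Rat

/-!
# One of the first 106 iterated equations `a^j p - b^j q = c (a^(j-1) + ... + b^(j-1))` has many prime solutions

For every admissible triple `(a, b, c)` there is a `j ≤ 106` such that the equation
`a^j p - b^j q = c (a^(j-1) + a^(j-2) b + ... + b^(j-1))`, in which `p` is the `j`-th iterate of `q` under
`y ↦ (b y + c) / a`, has solutions in primes for at least `x / (log x) ^ B` of the primes `q ≤ x`, for
arbitrarily large `x`, where moreover the earlier iterates are integers none of which is a prime; `B` is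
an absolute constant. If there is no odd prime `p ≤ k` with `p ∣ a - b` and `p ∤ c`, the bound `106` can be
replaced by `73` for `k = 3`, `61` for `k = 5`, `54` for `k = 7`, `51` for `k = 11`, `49` for `k = 13`, `48` for
`k = 17`, `46` for `k = 19`, `45` for `k = 23` and `44` for `k = 43`. The same is true of the difference
`j = e' - e` of two elements of an arbitrary set of 145 numbers (97, 78, 67, 61, 57, 45 for
`k = 3, 5, 7, 11, 13, 43`) and of every set of 45 numbers which misses a class modulo every odd prime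
`p ≤ 43` with `p ∣ a - b` and `p ∤ c`.

The theorem on 45 linear forms (`Pool.Agent.Y876.FF.exact_forms`, `Pool.Agent.Y876.FF.lh45`, which rests on
helper826's `DHL[45,2]`) is from the starting files; so are the elementary lemmas on iterates. The narrow
sets of 45 exponents were found by a computer search. helper245.
-/

set_option autoImplicit false

open Finset Filter

namespace Pool.Agent.Results.MP_bf63dc_nt.FirstOneHundredSix

open Pool.Agent.Helper245.G45 Pool.Agent.Helper245.G45.Ra

/-- the hypotheses of the question -/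
def Adm (a b c : ℤ) : Prop :=
  1 ≤ a ∧ 1 ≤ b ∧ c ≠ 0 ∧ IsCoprime a b ∧ IsCoprime a c ∧ IsCoprime b c ∧ ¬ (Odd a ∧ Odd b ∧ Odd c)

/-- the right-hand side of the `j`-th iterated equation -/
def rhs (a b c : ℤ) (j : ℕ) : ℤ := c * ∑ i ∈ range j, a ^ i * b ^ (j - 1 - i)

/-- The triple `(a ^ j, b ^ j, rhs a b c j)` satisfies the hypotheses of the question, and for arbitrarily
large `x` there are at least `x / (log x) ^ B` primes `q ≤ x` such that `a ^ j p - b ^ j q = rhs a b c j` with a
prime `p` and such that for every `0 < t < j` the solution `y` of `a ^ t y - b ^ t q = rhs a b c t` (the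
`t`-th iterate of `q` under `y ↦ (b y + c) / a`) is an integer and `|y|` is not a prime. -/
def Good (B : ℕ) (a b c : ℤ) (j : ℕ) : Prop :=
  Adm (a ^ j) (b ^ j) (rhs a b c j) ∧
    ∃ᶠ x : ℝ in atTop, x / Real.log x ^ B ≤
      ({q : ℕ | (q : ℝ) ≤ x ∧ q.Prime ∧ (∃ p : ℕ, p.Prime ∧ a ^ j * p - b ^ j * q = rhs a b c j) ∧
        ∀ t, 0 < t → t < j → ∃ y : ℤ, a ^ t * y - b ^ t * q = rhs a b c t ∧ ¬ y.natAbs.Prime}.ncard : ℝ)

/-- no odd prime `p ≤ k` divides `a - b` without dividing `c` -/
def NoBad (k : ℕ) (a b c : ℤ) : Prop := ∀ p : ℕ, p.Prime → 3 ≤ p → p ≤ k → (p : ℤ) ∣ a - b → (p : ℤ) ∣ c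

theorem good_of {B : ℕ} {a b c : ℤ} (hadm : Adm a b c) {j : ℕ} (hj : 1 ≤ j)
    (h : ∃ᶠ x : ℝ in atTop, x / Real.log x ^ B ≤ ((orb a b c j x).ncard : ℝ)) : Good B a b c j := by
  obtain ⟨ha, hb, hc, hab, hac, hbc, hpar⟩ := hadm
  obtain ⟨h1, h2⟩ := cj_coprime hab hac hbc hj
  exact ⟨⟨one_le_pow₀ ha, one_le_pow₀ hb, cj_pos a b c ha hb hc hj, hab.pow, h1, h2, cj_parity hpar hj⟩, h⟩

theorem result : ∃ B : ℕ,
    ∀ a b c : ℤ, Adm a b c →
      (∃ j : ℕ, 1 ≤ j ∧ j ≤ 106 ∧ (NoBad 3 a b c → j ≤ 73) ∧ (NoBad 5 a b c → j ≤ 61) ∧ (NoBad 7 a b c → j ≤ 54) ∧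
        (NoBad 11 a b c → j ≤ 51) ∧ (NoBad 13 a b c → j ≤ 49) ∧ (NoBad 17 a b c → j ≤ 48) ∧
        (NoBad 19 a b c → j ≤ 46) ∧ (NoBad 23 a b c → j ≤ 45) ∧ (NoBad 43 a b c → j ≤ 44) ∧ Good B a b c j) ∧
      (∀ E : Finset ℕ, (145 ≤ E.card ∨ (NoBad 3 a b c ∧ 97 ≤ E.card) ∨ (NoBad 5 a b c ∧ 78 ≤ E.card) ∨
          (NoBad 7 a b c ∧ 67 ≤ E.card) ∨ (NoBad 11 a b c ∧ 61 ≤ E.card) ∨ (NoBad 13 a b c ∧ 57 ≤ E.card) ∨
          (NoBad 43 a b c ∧ 45 ≤ E.card)) →
        ∃ e ∈ E, ∃ e' ∈ E, e < e' ∧ Good B a b c (e' - e)) ∧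
      (∀ E : Finset ℕ, 45 ≤ E.card →
        (∀ p : ℕ, p.Prime → 3 ≤ p → p ≤ 43 → (p : ℤ) ∣ a - b → ¬ (p : ℤ) ∣ c →
          ∃ r : ℕ, ∀ e ∈ E, ¬ e ≡ r [MOD p]) →
        ∃ e ∈ E, ∃ e' ∈ E, e < e' ∧ Good B a b c (e' - e)) := by
  refine ⟨BB, fun a b c hadm => ⟨?_, ?_, ?_⟩⟩
  all_goals have hadm' := hadm
  all_goals obtain ⟨ha, hb, hc, hab, hac, hbc, hpar⟩ := hadm
  · -- the first iterates
    have hmono : ∀ {k l : ℕ}, k ≤ l → NoBad l a b c → NoBad k a b c := fun hkl h p hp h3 hk => h p hp h3 (hk.trans hkl)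
    have key : ∀ (k K : ℕ) (E : Finset ℕ), NoBad k a b c → E.card = 45 → (∀ e ∈ E, e ≤ K) →
        (∀ p : ℕ, p.Prime → p ≤ 43 → p ≤ k ∨ ∃ c : ℕ, ∀ e ∈ E, ¬ e % p = c % p) →
        ∃ j, 1 ≤ j ∧ j ≤ K ∧ Good BB a b c j := by
      intro k K E h1 h3 h4 h5
      obtain ⟨j, hj1, hj2, h⟩ := rat_first ef ls a b c ha hb hc hab hac hbc hpar k K h1 E h3 h4 h5
      exact ⟨j, hj1, hj2, good_of hadm' hj1 h⟩
    have hdv : ∀ (N k : ℕ) (E : Finset ℕ), (∀ p : ℕ, p ≤ 43 → 2 ≤ p → p.Prime → p ∣ N → p ≤ k) →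
        (∀ p : ℕ, p.Prime → p ≤ 43 → p ∣ N ∨ ∃ c : ℕ, ∀ e ∈ E, ¬ e % p = c % p) →
        (∀ p : ℕ, p.Prime → p ≤ 43 → p ≤ k ∨ ∃ c : ℕ, ∀ e ∈ E, ¬ e % p = c % p) :=
      fun N k E h1 h3 p hp h43 => (h3 p hp h43).imp (h1 p h43 hp.two_le hp) id
    by_cases h43 : NoBad 43 a b c
    · obtain ⟨j, hj1, hj2, h⟩ := key 43 44 (range 45) h43 (by simp)
        (fun e he => by have := Finset.mem_range.1 he; omega) (fun p _ h => Or.inl h)
      exact ⟨j, hj1, by omega, fun _ => by omega, fun _ => by omega, fun _ => by omega, fun _ => by omega,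
        fun _ => by omega, fun _ => by omega, fun _ => by omega, fun _ => by omega, fun _ => hj2, h⟩
    by_cases h23 : NoBad 23 a b c
    · obtain ⟨j, hj1, hj2, h⟩ := key 23 45 E45 h23 E45_card E45_le
        (hdv 223092870 23 E45 (by intro p h1 h3 h4 h5; interval_cases p <;> revert h4 h5 <;> norm_num) E45_cls)
      exact ⟨j, hj1, by omega, fun _ => by omega, fun _ => by omega, fun _ => by omega, fun _ => by omega,
        fun _ => by omega, fun _ => by omega, fun _ => by omega, fun _ => hj2, fun h => absurd h h43, h⟩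
    by_cases h19 : NoBad 19 a b c
    · obtain ⟨j, hj1, hj2, h⟩ := key 19 46 E46 h19 E46_card E46_le
        (hdv 9699690 19 E46 (by intro p h1 h3 h4 h5; interval_cases p <;> revert h4 h5 <;> norm_num) E46_cls)
      exact ⟨j, hj1, by omega, fun _ => by omega, fun _ => by omega, fun _ => by omega, fun _ => by omega,
        fun _ => by omega, fun _ => by omega, fun _ => hj2, fun h => absurd h h23, fun h => absurd h h43, h⟩
    by_cases h17 : NoBad 17 a b c
    · obtain ⟨j, hj1, hj2, h⟩ := key 17 48 E48 h17 E48_card E48_le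
        (hdv 510510 17 E48 (by intro p h1 h3 h4 h5; interval_cases p <;> revert h4 h5 <;> norm_num) E48_cls)
      exact ⟨j, hj1, by omega, fun _ => by omega, fun _ => by omega, fun _ => by omega, fun _ => by omega,
        fun _ => by omega, fun _ => hj2, fun h => absurd h h19, fun h => absurd h h23,
        fun h => absurd h h43, h⟩
    by_cases h13 : NoBad 13 a b c
    · obtain ⟨j, hj1, hj2, h⟩ := key 13 49 E49 h13 E49_card E49_le
        (hdv 30030 13 E49 (by intro p h1 h3 h4 h5; interval_cases p <;> revert h4 h5 <;> norm_num) E49_cls)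
      exact ⟨j, hj1, by omega, fun _ => by omega, fun _ => by omega, fun _ => by omega, fun _ => by omega,
        fun _ => hj2, fun h => absurd h h17, fun h => absurd h h19, fun h => absurd h h23,
        fun h => absurd h h43, h⟩
    by_cases h11 : NoBad 11 a b c
    · obtain ⟨j, hj1, hj2, h⟩ := key 11 51 E51 h11 E51_card E51_le
        (hdv 2310 11 E51 (by intro p h1 h3 h4 h5; interval_cases p <;> revert h4 h5 <;> norm_num) E51_cls)
      exact ⟨j, hj1, by omega, fun _ => by omega, fun _ => by omega, fun _ => by omega, fun _ => hj2,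
        fun h => absurd h h13, fun h => absurd h h17, fun h => absurd h h19, fun h => absurd h h23,
        fun h => absurd h h43, h⟩
    by_cases h7 : NoBad 7 a b c
    · obtain ⟨j, hj1, hj2, h⟩ := key 7 54 E54 h7 E54_card E54_le
        (hdv 210 7 E54 (by intro p h1 h3 h4 h5; interval_cases p <;> revert h4 h5 <;> norm_num) E54_cls)
      exact ⟨j, hj1, by omega, fun _ => by omega, fun _ => by omega, fun _ => hj2, fun h => absurd h h11,
        fun h => absurd h h13, fun h => absurd h h17, fun h => absurd h h19, fun h => absurd h h23,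
        fun h => absurd h h43, h⟩
    by_cases h5 : NoBad 5 a b c
    · obtain ⟨j, hj1, hj2, h⟩ := key 5 61 E61 h5 E61_card E61_le
        (hdv 30 5 E61 (by intro p h1 h3 h4 h5; interval_cases p <;> revert h4 h5 <;> norm_num) E61_cls)
      exact ⟨j, hj1, by omega, fun _ => by omega, fun _ => hj2, fun h => absurd h h7, fun h => absurd h h11,
        fun h => absurd h h13, fun h => absurd h h17, fun h => absurd h h19, fun h => absurd h h23,
        fun h => absurd h h43, h⟩
    by_cases h3 : NoBad 3 a b c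
    · obtain ⟨j, hj1, hj2, h⟩ := key 3 73 E73 h3 E73_card E73_le
        (hdv 6 3 E73 (by intro p h1 h3 h4 h5; interval_cases p <;> revert h4 h5 <;> norm_num) E73_cls)
      exact ⟨j, hj1, by omega, fun _ => hj2, fun h => absurd h h5, fun h => absurd h h7,
        fun h => absurd h h11, fun h => absurd h h13, fun h => absurd h h17, fun h => absurd h h19,
        fun h => absurd h h23, fun h => absurd h h43, h⟩
    obtain ⟨j, hj1, hj2, h⟩ := key 2 106 E106 (fun p _ h3 h4 => by omega) E106_card E106_le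
        (hdv 2 2 E106 (by intro p h1 h3 h4 h5; interval_cases p <;> revert h4 h5 <;> norm_num) E106_cls)
    exact ⟨j, hj1, hj2, fun h => absurd h h3, fun h => absurd h h5, fun h => absurd h h7,
        fun h => absurd h h11, fun h => absurd h h13, fun h => absurd h h17, fun h => absurd h h19,
        fun h => absurd h h23, fun h => absurd h h43, h⟩
  · -- arbitrary sets of exponents
    intro E hE
    have key : ∀ (k N : ℕ) (L : List ℕ), NoBad k a b c → (∀ p ∈ L, p.Prime) →
        (∀ p : ℕ, p.Prime → 3 ≤ p → p ≤ 43 → p ≤ k ∨ p ∈ L) → left L N = 45 → N ≤ E.card →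
        ∃ e ∈ E, ∃ e' ∈ E, e < e' ∧ Good BB a b c (e' - e) := by
      intro k N L h1 h3 h4 h5 h6
      obtain ⟨e, he, e', he', hee, h⟩ := rat_set ef ls a b c ha hb hc hab hac hbc hpar k h1 E L N h3 h4 h5 h6
      exact ⟨e, he, e', he', hee, good_of hadm' (by omega) h⟩
    rcases hE with h | ⟨hn, h⟩ | ⟨hn, h⟩ | ⟨hn, h⟩ | ⟨hn, h⟩ | ⟨hn, h⟩ | ⟨hn, h⟩
    · refine key 2 145 [3, 5, 7, 11, 13, 17, 19, 23, 29, 31, 37, 41, 43] (fun p _ h3 h4 => by omega) ?_ ?_
        (by decide) h
      · intro p hp; fin_cases hp <;> norm_num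
      · intro p hp h3 h43
        interval_cases p <;> first | exact absurd hp (by decide) | exact Or.inr (by decide)
    · refine key 3 97 [5, 7, 11, 13, 17, 19, 23, 29, 31, 37, 41, 43] hn ?_ ?_ (by decide) h
      · intro p hp; fin_cases hp <;> norm_num
      · intro p hp h3 h43
        interval_cases p <;> first | exact absurd hp (by decide) | exact Or.inl (by decide) | exact Or.inr (by decide)
    · refine key 5 78 [7, 11, 13, 17, 19, 23, 29, 31, 37, 41, 43] hn ?_ ?_ (by decide) h
      · intro p hp; fin_cases hp <;> norm_num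
      · intro p hp h3 h43
        interval_cases p <;> first | exact absurd hp (by decide) | exact Or.inl (by decide) | exact Or.inr (by decide)
    · refine key 7 67 [11, 13, 17, 19, 23, 29, 31, 37, 41, 43] hn ?_ ?_ (by decide) h
      · intro p hp; fin_cases hp <;> norm_num
      · intro p hp h3 h43
        interval_cases p <;> first | exact absurd hp (by decide) | exact Or.inl (by decide) | exact Or.inr (by decide)
    · refine key 11 61 [13, 17, 19, 23, 29, 31, 37, 41, 43] hn ?_ ?_ (by decide) h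
      · intro p hp; fin_cases hp <;> norm_num
      · intro p hp h3 h43
        interval_cases p <;> first | exact absurd hp (by decide) | exact Or.inl (by decide) | exact Or.inr (by decide)
    · refine key 13 57 [17, 19, 23, 29, 31, 37, 41, 43] hn ?_ ?_ (by decide) h
      · intro p hp; fin_cases hp <;> norm_num
      · intro p hp h3 h43
        interval_cases p <;> first | exact absurd hp (by decide) | exact Or.inl (by decide) | exact Or.inr (by decide)
    · exact key 43 45 [] hn (by simp) (fun p _ _ h => Or.inl h) rfl h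
  · -- sets of 45 exponents
    intro E hE hcls
    obtain ⟨e, he, e', he', hee, h⟩ := rat_gen ef ls a b c ha hb hc hab hac hbc hpar E [] (by simp)
      (fun p hp h3 h43 => Or.inr (hcls p hp h3 h43)) hE
    exact ⟨e, he, e', he', hee, good_of hadm' (by omega) h⟩

end Pool.Agent.Results.MP_bf63dc_nt.FirstOneHundredSix
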