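import Pool.Agent.V11150.RatD

/-!
# A third of all the iterates of `x ↦ (b x + c) / a`

The `j`-th iterate `p` of `q` under `x ↦ (b x + c) / a` is given by the iterated equation
`a^j p - b^j q = c (a^(j-1) + a^(j-2) b + ... + b^(j-1))`; the question is whether the one with `j = 1`
has infinitely many solutions in primes. There is an absolute constant `C` such that for EVERY triple
`(a, b, c)` of the question and every `ε > 0`, in every sufficiently long window `u < j ≤ u + T` at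
least `(1 / 3 - ε) T` of ALL the exponents `j` are such that the `j`-th iterated equation, which satisfies
the hypotheses of the question too, has at least `x / (log x) ^ C` solutions in primes with `q ≤ x`, for
arbitrarily large `x`.

The theorem `Pool.Agent.W25.IT.Rat.rat_windows` of the starting library has the proportions `1 / 4`,
`1 / 5` (`5 ∣ a - b`, `5 ∤ c`) and `1 / 6` (`3 ∣ a - b`, `3 ∤ c`) and `x ^ (1 - η)` solutions; the
starting hand-in `HalfOfIterates` is about the multiples of an unspecified number. Proof: the coloured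
Maynard-Tao theorem with the constant `18 / 5 < 4` and a power of the logarithm (`Y827.RO.lamR0`: two
of any four classes of forms), and the theorem on four classes and all multiples of two
(`W432.UB.main`).
-/

set_option autoImplicit false

namespace Pool.Agent.Results.MP_bf63dc_nt.ThirdOfAllExponents

open Finset Filter

/-- the hypotheses of the question -/
def Adm (a b : ℕ) (c : ℤ) : Prop :=
  1 ≤ a ∧ 1 ≤ b ∧ c ≠ 0 ∧ IsCoprime (a : ℤ) b ∧ IsCoprime (a : ℤ) c ∧ IsCoprime (b : ℤ) c ∧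
    ¬ (Odd a ∧ Odd b ∧ Odd c)

/-- the number of primes `q ≤ x` such that `a p - b q = c` for a prime `p` -/
noncomputable def count (a b : ℕ) (c : ℤ) (x : ℕ) : ℕ :=
  {q : ℕ | q ≤ x ∧ q.Prime ∧ ∃ p : ℕ, p.Prime ∧ (a : ℤ) * p - b * q = c}.ncard

/-- the hypotheses and the conclusion of the question; the number of the solutions with `q ≤ x` is at
least `x / (log x) ^ C` for arbitrarily large `x` -/
def Good (C a b : ℕ) (c : ℤ) : Prop :=
  Adm a b c ∧ ∃ᶠ x : ℕ in atTop, (x : ℝ) / (Real.log x) ^ C ≤ (count a b c x : ℝ)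

/-- the right-hand side of the `j`-th iterated equation -/
def rhs (a b : ℕ) (c : ℤ) (j : ℕ) : ℤ := c * ∑ i ∈ range j, (a : ℤ) ^ i * (b : ℤ) ^ (j - 1 - i)

theorem adm_iter {a b : ℕ} {c : ℤ} (h : Adm a b c) {j : ℕ} (hj : 1 ≤ j) :
    Adm (a ^ j) (b ^ j) (rhs a b c j) := by
  obtain ⟨ha, hb, hc, hab, hac, hbc, hpar⟩ := h
  have ha' : (1 : ℤ) ≤ a := by exact_mod_cast ha
  have hb' : (1 : ℤ) ≤ b := by exact_mod_cast hb
  obtain ⟨h1, h2⟩ := Pool.Agent.V11150.RatL.cj_coprime hab hac hbc hj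
  refine ⟨Nat.one_le_pow _ _ ha, Nat.one_le_pow _ _ hb,
    Pool.Agent.V11150.RatL.cj_pos a b c ha' hb' hc hj, ?_, ?_, ?_, ?_⟩
  · push_cast
    exact hab.pow
  · push_cast
    exact h1
  · push_cast
    exact h2
  · rintro ⟨h3, h4, h5⟩
    refine Pool.Agent.V11150.RatL.cj_parity (a := (a : ℤ)) (b := (b : ℤ)) (c := c) ?_ hj ⟨?_, ?_, h5⟩
    · rintro ⟨h6, h7, h8⟩
      exact hpar ⟨by exact_mod_cast h6, by exact_mod_cast h7, h8⟩
    · exact_mod_cast h3
    · exact_mod_cast h4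

theorem good_iter {C a b : ℕ} {c : ℤ} (h : Adm a b c) {j : ℕ} (hj : 1 ≤ j)
    (hg : j ∈ Pool.Agent.V11150.RatD.Sol C a b c) : Good C (a ^ j) (b ^ j) (rhs a b c j) := by
  refine ⟨adm_iter h hj, Filter.Frequently.mono hg fun x hx => hx.trans ?_⟩
  rw [Nat.cast_le]
  refine Set.ncard_le_ncard ?_ ((Set.finite_Iic x).subset fun q hq => hq.1)
  rintro q ⟨⟨hq, p, hp, hpq⟩, hqx⟩
  refine ⟨hqx, hq, p, hp, ?_⟩
  push_cast
  exact hpq

theorem result : ∃ C : ℕ, ∀ (a b : ℕ) (c : ℤ), Adm a b c → ∀ ε : ℝ, 0 < ε →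
    ∃ L : ℕ, ∀ T : ℕ, L ≤ T → ∀ u : ℕ, (1 / 3 - ε) * (T : ℝ) ≤
      ({j : ℕ | u < j ∧ j ≤ u + T ∧ Good C (a ^ j) (b ^ j) (rhs a b c j)}.ncard : ℝ) := by
  obtain ⟨C, hC⟩ := Pool.Agent.V11150.RatD.third
  refine ⟨C, ?_⟩
  intro a b c hadm ε hε
  have hadm' := hadm
  obtain ⟨ha, hb, hc, hab, hac, hbc, hpar⟩ := hadm
  have ha' : (1 : ℤ) ≤ a := by exact_mod_cast ha
  have hb' : (1 : ℤ) ≤ b := by exact_mod_cast hb
  have hpar' : ¬ (Odd (a : ℤ) ∧ Odd (b : ℤ) ∧ Odd c) := by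
    rintro ⟨h6, h7, h8⟩
    exact hpar ⟨by exact_mod_cast h6, by exact_mod_cast h7, h8⟩
  obtain ⟨L, hL⟩ := hC a b c ha' hb' hc hab hac hbc hpar' ε hε
  refine ⟨L, fun T hT u => (hL T hT u).trans ?_⟩
  rw [Nat.cast_le]
  refine Set.ncard_le_ncard ?_ ((Set.finite_Ioc u (u + T)).subset fun k hk => ⟨hk.1, hk.2.1⟩)
  rintro j ⟨h1, h2, h3⟩
  exact ⟨h1, h2, good_iter hadm' (by omega) h3⟩

end Pool.Agent.Results.MP_bf63dc_nt.ThirdOfAllExponents
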