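import Pool.Agent.V11150.SlopeB

/-!
# A third of the pairs of slopes, near every position

For all positive integers `m_0, ..., m_(T-1)` there is `C` such that for EVERY integer `B`, for at least
`T (T - 3) / 6` of the pairs `i < j` there is an equation `a p - b q = c` which satisfies the hypotheses
of the question (`a, b, c` pairwise coprime, `c ≠ 0`, not all odd), has the slope `b / a = m_j / m_i`
and a constant `c` with `|c - a B| ≤ C`, and has infinitely many solutions in primes; more precisely at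
least `x ^ (1 - η)` primes `q ≤ x` occur, for arbitrarily large `x`, for every `η > 0`. Moreover some
FIXED set `E` of at least `T (T - 3) / 6` pairs works for all `B` in arbitrarily long intervals.
For `T = 4`: one of the six ratios of four slopes works near every position, and a fixed one of them
in arbitrarily long intervals of positions.

Proof: two of any four classes of linear forms are hit by primes (`Pool.Agent.TH899.UG.fourC`, in the
form `Pool.Agent.TH899.UG.PairB4.slopes`, starting files), Turán's theorem for `K_4`, and Brown's lemma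
on piecewise syndetic colour classes.
-/

set_option autoImplicit false

namespace Pool.Agent.Results.MP_bf63dc_nt.ThirdOfSlopes

open Filter Finset

/-- Some equation `a p - b q = c` with the slope `b / a = m' / m` and with `|c - a B| ≤ C` satisfies
the hypotheses of the question and has infinitely many solutions in primes; for every `η > 0` and
arbitrarily large `x` at least `x ^ (1 - η)` primes `q ≤ x` occur in them. -/
def SolvableNear (m m' C : ℕ) (B : ℤ) : Prop :=
  ∃ (a b : ℕ) (c : ℤ), 1 ≤ a ∧ 1 ≤ b ∧ a * m' = b * m ∧ c ≠ 0 ∧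
    IsCoprime (a : ℤ) b ∧ IsCoprime (a : ℤ) c ∧ IsCoprime (b : ℤ) c ∧
    ¬ (Odd a ∧ Odd b ∧ Odd c) ∧ |c - a * B| ≤ C ∧
    {pq : ℕ × ℕ | pq.1.Prime ∧ pq.2.Prime ∧ (a : ℤ) * pq.1 - b * pq.2 = c}.Infinite ∧
    ∀ η : ℝ, 0 < η → ∃ᶠ x : ℝ in atTop, x ^ (1 - η) ≤
      ({q : ℕ | (q.Prime ∧ ∃ p : ℕ, p.Prime ∧ (a : ℤ) * p - b * q = c) ∧ (q : ℝ) ≤ x}.ncard : ℝ)

theorem of_solv {m m' C : ℕ} {B : ℤ} (h : Pool.Agent.V11150.SlopeB.Solv m m' C B) :
    SolvableNear m m' C B := by
  obtain ⟨a, b, c, h1, h2, h3, h4, h5, h6, h7, h8, h9, h10⟩ := h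
  refine ⟨a, b, c, h1, h2, h3, h4, h5, h6, h7, h8, h9, ?_, h10⟩
  apply Set.Infinite.of_image Prod.snd
  refine h10.infinite.mono ?_
  rintro q ⟨hq, p, hp, hpq⟩
  exact ⟨(p, q), ⟨hp, hq, hpq⟩, rfl⟩

open Classical in
theorem result : ∀ (T : ℕ) (m : Fin T → ℕ), (∀ i, 1 ≤ m i) → ∃ C : ℕ,
    (∀ B : ℤ, (T : ℤ) * (T - 3) ≤ 6 * ((univ.filter (fun x : Fin T × Fin T =>
      x.1 < x.2 ∧ SolvableNear (m x.1) (m x.2) C B)).card : ℤ)) ∧
    ∃ E : Finset (Fin T × Fin T), (∀ x ∈ E, x.1 < x.2) ∧ (T : ℤ) * (T - 3) ≤ 6 * (E.card : ℤ) ∧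
      ∀ L : ℕ, ∃ B₀ : ℤ, ∀ B : ℤ, B₀ ≤ B → B ≤ B₀ + L →
        ∀ x ∈ E, SolvableNear (m x.1) (m x.2) C B := by
  intro T m hm
  obtain ⟨C, h1, E, h2, h3, h4⟩ := Pool.Agent.V11150.SlopeB.main m hm
  refine ⟨C, fun B => (h1 B).trans ?_, E, h2, h3, fun L => ?_⟩
  · have : (univ.filter (fun x : Fin T × Fin T => x.1 < x.2 ∧
        Pool.Agent.V11150.SlopeB.Solv (m x.1) (m x.2) C B)).card ≤
        (univ.filter (fun x : Fin T × Fin T => x.1 < x.2 ∧
          SolvableNear (m x.1) (m x.2) C B)).card := by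
      apply card_le_card
      intro x hx
      rw [mem_filter] at hx ⊢
      exact ⟨hx.1, hx.2.1, of_solv hx.2.2⟩
    have h5 : ((univ.filter (fun x : Fin T × Fin T => x.1 < x.2 ∧
        Pool.Agent.V11150.SlopeB.Solv (m x.1) (m x.2) C B)).card : ℤ) ≤
        ((univ.filter (fun x : Fin T × Fin T => x.1 < x.2 ∧
          SolvableNear (m x.1) (m x.2) C B)).card : ℤ) := by exact_mod_cast this
    linarith
  · obtain ⟨B₀, h⟩ := h4 L
    exact ⟨B₀, fun B h5 h6 x hx => of_solv (h B h5 h6 x hx)⟩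

end Pool.Agent.Results.MP_bf63dc_nt.ThirdOfSlopes
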